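import Mathlib

/-! Determinants of tree-structured matrices: elimination of the last vertex. -/

namespace Pool.Agent.Helper47.Alt

open Matrix Finset

/-- matrix of a rooted tree on `0, ..., m-1` with parent function `p`: rows scaled by `g` -/
def NM {R : Type*} [CommRing R] (p : ℕ → ℕ) (x : R) (m : ℕ) (f g : ℕ → R) :
    Matrix (Fin m) (Fin m) R :=
  Matrix.of fun i j => if (i : ℕ) = j then f i else
    if 0 < (i : ℕ) ∧ p i = j then g i else
    if 0 < (j : ℕ) ∧ p j = i then x * g i else 0

theorem NM_elim_field {K : Type*} [Field K] (p : ℕ → ℕ) (x : K) (m : ℕ) (hm : 0 < m)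
    (hp : ∀ i, 0 < i → i ≤ m → p i < i) (f g : ℕ → K) (hf : f m ≠ 0) :
    (NM p x (m + 1) f g).det = (NM p x m
      (Function.update f (p m) (f (p m) * f m - x * g (p m) * g m))
      (Function.update g (p m) (g (p m) * f m))).det := by
  classical
  have hq : p m < m := hp m hm le_rfl
  set A := NM p x m f g with hA
  set B : Matrix (Fin m) (Fin 1) K := Matrix.of fun i _ => if p m = (i : ℕ) then x * g i else 0
    with hB
  set C : Matrix (Fin 1) (Fin m) K := Matrix.of fun _ j => if p m = (j : ℕ) then g m else 0
    with hC
  set D : Matrix (Fin 1) (Fin 1) K := Matrix.of fun _ _ => f m with hD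
  set E : Matrix (Fin 1) (Fin m) K := -(f m)⁻¹ • C with hE
  have hblock : (NM p x (m + 1) f g).submatrix finSumFinEquiv finSumFinEquiv =
      Matrix.fromBlocks A B C D := by
    have eL : ∀ i : Fin m, ((finSumFinEquiv (Sum.inl i : Fin m ⊕ Fin 1) : Fin (m + 1)) : ℕ) = i := by
      intro i
      rw [finSumFinEquiv_apply_left]
      rfl
    have eR : ∀ i : Fin 1, ((finSumFinEquiv (Sum.inr i : Fin m ⊕ Fin 1) : Fin (m + 1)) : ℕ) = m := by
      intro i
      rw [finSumFinEquiv_apply_right]
      have : (i : ℕ) = 0 := by omega
      show m + (i : ℕ) = m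
      omega
    ext i j
    rcases i with i | i <;> rcases j with j | j
    · simp only [Matrix.submatrix_apply, NM, hA, Matrix.of_apply, Matrix.fromBlocks_apply₁₁, eL]
    · have h1 : ¬ (i : ℕ) = m := by omega
      have h2 : ¬ (0 < (i : ℕ) ∧ p i = m) := by
        rintro ⟨h, h'⟩
        have := hp i h (by omega)
        omega
      simp only [Matrix.submatrix_apply, NM, hB, Matrix.of_apply, Matrix.fromBlocks_apply₁₂, eL, eR,
        if_neg h1, if_neg h2, hm, true_and]
    · have h1 : ¬ m = (j : ℕ) := by omega
      have h2 : ¬ (0 < (j : ℕ) ∧ p j = m) := by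
        rintro ⟨h, h'⟩
        have := hp j h (by omega)
        omega
      simp only [Matrix.submatrix_apply, NM, hC, Matrix.of_apply, Matrix.fromBlocks_apply₂₁, eL, eR,
        if_neg h1, if_neg h2, hm, true_and]
    · simp only [Matrix.submatrix_apply, NM, hD, Matrix.of_apply, Matrix.fromBlocks_apply₂₂, eR,
        if_true]
  have hdet : (NM p x (m + 1) f g).det = (A + B * E).det * f m := by
    rw [← Matrix.det_submatrix_equiv_self finSumFinEquiv, hblock]
    have h1 : Matrix.fromBlocks A B C D * Matrix.fromBlocks 1 0 E 1 =
        Matrix.fromBlocks (A + B * E) B 0 D := by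
      rw [Matrix.fromBlocks_multiply]
      have h2 : C * (1 : Matrix (Fin m) (Fin m) K) + D * E = 0 := by
        rw [Matrix.mul_one]
        ext i j
        simp only [hE, hD, Matrix.add_apply, Matrix.mul_apply,
          Matrix.of_apply, Matrix.smul_apply, Matrix.zero_apply, Finset.univ_unique,
          Finset.sum_singleton, smul_eq_mul]
        have hc : C default j = C i j := by
          congr 1
          exact Subsingleton.elim _ _
        rw [hc]
        field_simp
        ring
      rw [h2]
      simp
    have h3 := congrArg Matrix.det h1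
    rw [Matrix.det_mul, Matrix.det_fromBlocks_zero₁₂, Matrix.det_fromBlocks_zero₂₁] at h3
    simp only [Matrix.det_one, mul_one] at h3
    rw [h3]
    congr 1
    rw [Matrix.det_unique]
    simp [hD]
  rw [hdet]
  have hfac : NM p x m (Function.update f (p m) (f (p m) * f m - x * g (p m) * g m))
      (Function.update g (p m) (g (p m) * f m)) =
      Matrix.diagonal (fun i : Fin m => if (i : ℕ) = p m then f m else 1) * (A + B * E) := by
    ext i j
    rw [Matrix.diagonal_mul]
    simp only [Matrix.add_apply, Matrix.mul_apply, Finset.univ_unique, Finset.sum_singleton,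
      hE, hB, hC, hA, NM, Matrix.of_apply, Matrix.smul_apply, smul_eq_mul]
    by_cases hi : (i : ℕ) = p m
    · rw [if_pos hi]
      by_cases hij : (i : ℕ) = j
      · have hj : (j : ℕ) = p m := by omega
        have hi' : p m = (i : ℕ) := hi.symm
        have hj' : p m = (j : ℕ) := hj.symm
        simp only [hij, if_true, ← hj', Function.update_self]
        field_simp
        ring
      · have hj : ¬ p m = (j : ℕ) := by omega
        simp only [hij, if_false, hj]
        rw [hi, Function.update_self]
        split_ifs <;> ring
    · rw [if_neg hi]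
      have hi' : ¬ p m = (i : ℕ) := fun h => hi h.symm
      simp only [hi', if_false, Function.update_of_ne hi]
      split_ifs <;> ring
  rw [hfac, Matrix.det_mul, Matrix.det_diagonal]
  have hprod : ∏ i : Fin m, (if (i : ℕ) = p m then f m else 1) = f m := by
    rw [Finset.prod_eq_single (⟨p m, hq⟩ : Fin m)]
    · simp
    · intro i _ hi
      rw [if_neg]
      intro h
      exact hi (Fin.ext h)
    · intro h
      exact absurd (Finset.mem_univ _) h
  rw [hprod, mul_comm]

theorem NM_elim {R : Type*} [CommRing R] [IsDomain R] (p : ℕ → ℕ) (x : R) (m : ℕ) (hm : 0 < m)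
    (hp : ∀ i, 0 < i → i ≤ m → p i < i) (f g : ℕ → R) (hf : f m ≠ 0) :
    (NM p x (m + 1) f g).det = (NM p x m
      (Function.update f (p m) (f (p m) * f m - x * g (p m) * g m))
      (Function.update g (p m) (g (p m) * f m))).det := by
  have hinj := IsFractionRing.injective R (FractionRing R)
  set φ := algebraMap R (FractionRing R) with hφ
  have hmap : ∀ (k : ℕ) (f g : ℕ → R), φ (NM p x k f g).det =
      (NM p (φ x) k (fun i => φ (f i)) (fun i => φ (g i))).det := by
    intro k f g
    rw [RingHom.map_det]
    congr 1
    ext i j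
    simp only [RingHom.mapMatrix_apply, Matrix.map_apply, NM, Matrix.of_apply]
    split_ifs <;> simp
  apply hinj
  rw [hmap, hmap]
  have hf' : φ (f m) ≠ 0 := by
    intro h
    exact hf (hinj (by rw [h, map_zero]))
  rw [NM_elim_field p (φ x) m hm hp (fun i => φ (f i)) (fun i => φ (g i)) hf']
  congr 2
  · ext i
    by_cases h : i = p m
    · subst h; simp
    · simp [Function.update_of_ne h]
  · ext i
    by_cases h : i = p m
    · subst h; simp
    · simp [Function.update_of_ne h]

end Pool.Agent.Helper47.Alt
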