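import Pool.Agent.Helper47.Alt.State
import Pool.Agent.Helper47.Alt.Mat

/-! Main induction. -/

namespace Pool.Agent.Helper47.Alt

open Polynomial Finset

/-- same-sign children of `v` among `m, ..., n-1` -/
def ch (p : ℕ → ℕ) (b : ℕ → ℤ) (m n v : ℕ) : ℕ :=
  ((Finset.Ico m n).filter (fun c => p c = v ∧ 0 < b c * b v)).card

/-- invariant before processing vertex `m - 1` -/
structure Inv (p : ℕ → ℕ) (b : ℕ → ℤ) (n m : ℕ) (f g : ℕ → ℤ[X]) (σ : ℕ → ℤ) (β d : ℕ → ℕ)
    (u h : ℕ → ℤ[X]) : Prop where
  unit : ∀ i < m, σ i = 1 ∨ σ i = -1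
  hf : ∀ i < m, f i = C (σ i) * ((β i : ℤ[X]) * ((1 + X) * h i) + u i)
  hg : ∀ i < m, g i = C (σ i * (b i).sign) * h i
  st : ∀ i < m, St (β i) (d i) (u i) (h i)
  bud : ∀ i < m, β i + ch p b m n i = (b i).natAbs
  tot : ∑ i ∈ range m, (d i + 1) = n

theorem ch_step (p : ℕ → ℕ) (b : ℕ → ℤ) (m n v : ℕ) (hm : m < n) :
    ch p b m n v = ch p b (m + 1) n v + if p m = v ∧ 0 < b m * b v then 1 else 0 := by
  unfold ch
  rw [← Finset.insert_Ico_add_one_left_eq_Ico hm, Finset.filter_insert]
  split_ifs with h
  · rw [Finset.card_insert_of_notMem]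
    simp
  · simp

theorem ch_mono (p : ℕ → ℕ) (b : ℕ → ℤ) (m n v : ℕ) (hm : 1 ≤ m) :
    ch p b m n v ≤ ch p b 1 n v := by
  unfold ch
  apply Finset.card_le_card
  apply Finset.filter_subset_filter
  apply Finset.Ico_subset_Ico_left hm

theorem step {p : ℕ → ℕ} {b : ℕ → ℤ} {n m : ℕ} (hm : 0 < m) (hmn : m < n)
    (hp : p m < m) (hb : ∀ i < n, b i ≠ 0)
    (hs : ∀ v < n, ch p b 1 n v ≤ (b v).natAbs)
    {f g : ℕ → ℤ[X]} {σ : ℕ → ℤ} {β d : ℕ → ℕ} {u h : ℕ → ℤ[X]}
    (H : Inv p b n (m + 1) f g σ β d u h) :
    f m ≠ 0 ∧ ∃ σ' β' d' u' h', Inv p b n m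
      (Function.update f (p m) (f (p m) * f m - X * g (p m) * g m))
      (Function.update g (p m) (g (p m) * f m)) σ' β' d' u' h' := by
  set q := p m with hq
  have hdm := (H.st m (by omega)).done
  set F := (β m : ℤ[X]) * ((1 + X) * h m) + u m with hF
  have hfm : f m = C (σ m) * F := H.hf m (by omega)
  have hgm : g m = C (σ m * (b m).sign) * h m := H.hg m (by omega)
  have hfq : f q = C (σ q) * ((β q : ℤ[X]) * ((1 + X) * h q) + u q) := H.hf q (by omega)
  have hgq : g q = C (σ q * (b q).sign) * h q := H.hg q (by omega)
  have hσm := H.unit m (by omega)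
  have hσq := H.unit q (by omega)
  have hne : f m ≠ 0 := by
    rw [hfm]
    have h1 : F ≠ 0 := by
      intro h0
      have := hdm.Fpos.1 0 (by omega)
      rw [h0] at this
      simp at this
    have h2 : σ m ≠ 0 := by rcases hσm with h | h <;> rw [h] <;> norm_num
    exact mul_ne_zero (by simpa using h2) h1
  refine ⟨hne, ?_⟩
  have hσqm : σ q * σ m = 1 ∨ σ q * σ m = -1 := by
    rcases hσm with h | h <;> rcases hσq with h' | h' <;> rw [h, h'] <;> norm_num
  have hmq : m ≠ q := by omega
  have hsum : ∀ (d' : ℕ), d' + 1 = (d q + 1) + (d m + 1) →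
      ∑ i ∈ range m, (Function.update d q d' i + 1) = n := by
    intro d' hd'
    have h1 := H.tot
    rw [Finset.sum_range_succ] at h1
    rw [← Finset.add_sum_erase _ _ (Finset.mem_range.2 (show q < m by omega))] at h1 ⊢
    rw [Function.update_self]
    have h2 : ∑ i ∈ (range m).erase q, (Function.update d q d' i + 1) =
        ∑ i ∈ (range m).erase q, (d i + 1) := by
      apply Finset.sum_congr rfl
      intro i hi
      rw [Function.update_of_ne (Finset.ne_of_mem_erase hi)]
    rw [h2]
    omega
  by_cases hss : 0 < b m * b q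
  · -- same sign
    have hsign : (b q).sign * (b m).sign = 1 := by
      have h1 : (b m * b q).sign = 1 := Int.sign_eq_one_of_pos hss
      rw [Int.sign_mul] at h1
      linarith [mul_comm (b q).sign (b m).sign]
    have hβ : 1 ≤ β q := by
      have h1 := H.bud q (by omega)
      have h2 := ch_step p b m n q hmn
      rw [if_pos ⟨hq.symm, hss⟩] at h2
      have h3 := ch_mono p b m n q hm
      have h4 := hs q (by omega)
      omega
    obtain ⟨γ, hγ⟩ : ∃ γ, β q = γ + 1 := ⟨β q - 1, by omega⟩
    have hstq := H.st q (by omega)
    rw [hγ] at hstq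
    have hnew := hstq.same hdm
    refine ⟨Function.update σ q (σ q * σ m), Function.update β q γ,
      Function.update d q (d q + (d m + 1)),
      Function.update u q (u q * F + h q * ((1 + X) * F - X * h m)),
      Function.update h q (h q * F), ?_⟩
    constructor
    · intro i hi
      by_cases hiq : i = q
      · subst hiq; rw [Function.update_self]; exact hσqm
      · rw [Function.update_of_ne hiq]; exact H.unit i (by omega)
    · intro i hi
      by_cases hiq : i = q
      · rw [hiq]
        simp only [Function.update_self]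
        rw [hfm, hgm, hfq, hgq, hγ]
        have e1 : X * (C (σ q * (b q).sign) * h q) * (C (σ m * (b m).sign) * h m) =
            C (σ q * σ m) * (X * h q * h m) := by
          have : σ q * σ m = (σ q * (b q).sign) * (σ m * (b m).sign) := by
            calc σ q * σ m = σ q * σ m * ((b q).sign * (b m).sign) := by rw [hsign, mul_one]
              _ = _ := by ring
          rw [this]
          simp only [C_mul]
          ring
        rw [e1, C_mul]
        push_cast
        ring
      · simp only [Function.update_of_ne hiq]
        exact H.hf i (by omega)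
    · intro i hi
      by_cases hiq : i = q
      · rw [hiq]
        simp only [Function.update_self]
        rw [hfm, hgq]
        simp only [C_mul]
        ring
      · simp only [Function.update_of_ne hiq]
        exact H.hg i (by omega)
    · intro i hi
      by_cases hiq : i = q
      · rw [hiq]
        simp only [Function.update_self]
        exact hnew
      · simp only [Function.update_of_ne hiq]
        exact H.st i (by omega)
    · intro i hi
      have h2 := ch_step p b m n i hmn
      have h1 := H.bud i (by omega)
      by_cases hiq : i = q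
      · subst hiq
        rw [Function.update_self]
        rw [if_pos ⟨hq.symm, hss⟩] at h2
        omega
      · rw [Function.update_of_ne hiq]
        rw [if_neg (fun hh => hiq (hh.1.symm.trans hq.symm))] at h2
        omega
    · exact hsum _ (by omega)
  · -- opposite sign
    have hsign : (b q).sign * (b m).sign = -1 := by
      have h0 : b m * b q < 0 := by
        rcases lt_trichotomy (b m * b q) 0 with h | h | h
        · exact h
        · exact absurd h (mul_ne_zero (hb m hmn) (hb q (by omega)))
        · exact absurd h hss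
      have h1 : (b m * b q).sign = -1 := Int.sign_eq_neg_one_of_neg h0
      rw [Int.sign_mul] at h1
      linarith [mul_comm (b q).sign (b m).sign]
    have hnew := (H.st q (by omega)).opp hdm
    refine ⟨Function.update σ q (σ q * σ m), β,
      Function.update d q (d q + (d m + 1)),
      Function.update u q (u q * F + X * (h q * h m)),
      Function.update h q (h q * F), ?_⟩
    constructor
    · intro i hi
      by_cases hiq : i = q
      · subst hiq; rw [Function.update_self]; exact hσqm
      · rw [Function.update_of_ne hiq]; exact H.unit i (by omega)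
    · intro i hi
      by_cases hiq : i = q
      · rw [hiq]
        simp only [Function.update_self]
        rw [hfm, hgm, hfq, hgq]
        have e1 : X * (C (σ q * (b q).sign) * h q) * (C (σ m * (b m).sign) * h m) =
            -(C (σ q * σ m) * (X * h q * h m)) := by
          have : σ q * σ m = -((σ q * (b q).sign) * (σ m * (b m).sign)) := by
            calc σ q * σ m = -(σ q * σ m * ((b q).sign * (b m).sign)) := by rw [hsign]; ring
              _ = _ := by ring
          rw [this]
          simp only [C_neg, C_mul]
          ring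
        rw [e1, C_mul]
        ring
      · simp only [Function.update_of_ne hiq]
        exact H.hf i (by omega)
    · intro i hi
      by_cases hiq : i = q
      · rw [hiq]
        simp only [Function.update_self]
        rw [hfm, hgq]
        simp only [C_mul]
        ring
      · simp only [Function.update_of_ne hiq]
        exact H.hg i (by omega)
    · intro i hi
      by_cases hiq : i = q
      · rw [hiq]
        simp only [Function.update_self]
        exact hnew
      · simp only [Function.update_of_ne hiq]
        exact H.st i (by omega)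
    · intro i hi
      have h2 := ch_step p b m n i hmn
      have h1 := H.bud i (by omega)
      by_cases hiq : i = q
      · subst hiq
        rw [if_neg (fun hh => hss hh.2)] at h2
        omega
      · rw [if_neg (fun hh => hiq (hh.1.symm.trans hq.symm))] at h2
        omega
    · exact hsum _ (by omega)

theorem final {p : ℕ → ℕ} {b : ℕ → ℤ} {n : ℕ} (hp : ∀ i, 0 < i → i < n → p i < i)
    (hb : ∀ i < n, b i ≠ 0) (hs : ∀ v < n, ch p b 1 n v ≤ (b v).natAbs) :
    ∀ m, m + 1 ≤ n → ∀ (f g : ℕ → ℤ[X]) (σ : ℕ → ℤ) (β d : ℕ → ℕ) (u h : ℕ → ℤ[X]),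
      Inv p b n (m + 1) f g σ β d u h →
      ∃ (s : ℤ) (F G : ℤ[X]), (s = 1 ∨ s = -1) ∧ Done (n - 1) F G ∧
        (NM p X (m + 1) f g).det = C s * F := by
  intro m
  induction m with
  | zero =>
    intro hn f g σ β d u h H
    refine ⟨σ 0, (β 0 : ℤ[X]) * ((1 + X) * h 0) + u 0, h 0, H.unit 0 (by omega), ?_, ?_⟩
    · have h1 := H.tot
      simp at h1
      have e : d 0 = n - 1 := by omega
      rw [← e]
      exact (H.st 0 (by omega)).done
    · show (NM p X 1 f g).det = _
      rw [Matrix.det_fin_one]
      have := H.hf 0 (by omega)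
      simpa [NM] using this
  | succ m ih =>
    intro hn f g σ β d u h H
    obtain ⟨hne, σ', β', d', u', h', H'⟩ := step (m := m + 1) (by omega) (by omega)
      (hp (m + 1) (by omega) (by omega)) hb hs H
    rw [NM_elim p X (m + 1) (by omega) (fun i h1 h2 => hp i h1 (by omega)) f g hne]
    exact ih (by omega) _ _ σ' β' d' u' h' H'

theorem det_form {p : ℕ → ℕ} {b : ℕ → ℤ} {n : ℕ} (hn : 0 < n)
    (hp : ∀ i, 0 < i → i < n → p i < i)
    (hb : ∀ i < n, b i ≠ 0) (hs : ∀ v < n, ch p b 1 n v ≤ (b v).natAbs) :
    ∃ (s : ℤ) (F G : ℤ[X]), (s = 1 ∨ s = -1) ∧ Done (n - 1) F G ∧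
        (NM p X n (fun i => C (b i) * (1 + X)) (fun _ => 1)).det = C s * F := by
  obtain ⟨m, rfl⟩ : ∃ m, n = m + 1 := ⟨n - 1, by omega⟩
  apply final hp hb hs m le_rfl _ _ (fun i => (b i).sign) (fun i => (b i).natAbs) (fun _ => 0)
    (fun _ => 0) (fun _ => 1)
  constructor
  · intro i hi
    rcases lt_trichotomy (b i) 0 with h | h | h
    · right; exact Int.sign_eq_neg_one_of_neg h
    · exact absurd h (hb i hi)
    · left; exact Int.sign_eq_one_of_pos h
  · intro i hi
    have e : b i = (b i).sign * (b i).natAbs := (Int.sign_mul_natAbs (b i)).symm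
    have e2 : C (b i) = C (b i).sign * (((b i).natAbs : ℕ) : ℤ[X]) := by
      conv_lhs => rw [e]
      rw [C_mul]
      congr 1
    rw [e2]
    ring
  · intro i hi
    have : (b i).sign * (b i).sign = 1 := by
      rcases lt_trichotomy (b i) 0 with h | h | h
      · rw [Int.sign_eq_neg_one_of_neg h]; norm_num
      · exact absurd h (hb i hi)
      · rw [Int.sign_eq_one_of_pos h]; norm_num
    rw [this]
    simp
  · intro i hi
    apply St.leaf
    have := hb i hi
    omega
  · intro i hi
    have : ch p b (m + 1) (m + 1) i = 0 := by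
      unfold ch
      simp
    omega
  · simp

end Pool.Agent.Helper47.Alt
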