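import Mathlib

/-! Likelihood ratio order of coefficient sequences and its behaviour under convolution. -/

namespace Pool.Agent.Helper47.Alt

open Polynomial Finset

/-- `a` is below `b` in the likelihood ratio order -/
def P2 (a b : ℤ[X]) : Prop :=
  ∀ i j : ℕ, i ≤ j → a.coeff j * b.coeff i ≤ a.coeff i * b.coeff j

/-- all two by two Toeplitz minors are non-negative -/
def PF (c : ℤ[X]) : Prop := ∀ δ : ℕ, P2 c (X ^ δ * c)

theorem P2.refl (a : ℤ[X]) : P2 a a := fun _ _ _ => (mul_comm _ _).le

theorem P2.add_right {a b b' : ℤ[X]} (h : P2 a b) (h' : P2 a b') : P2 a (b + b') := by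
  intro i j hij
  have h1 := h i j hij
  have h2 := h' i j hij
  simp only [coeff_add, mul_add]
  linarith

theorem P2.add_left {a a' b : ℤ[X]} (h : P2 a b) (h' : P2 a' b) : P2 (a + a') b := by
  intro i j hij
  have h1 := h i j hij
  have h2 := h' i j hij
  simp only [coeff_add, add_mul]
  linarith

theorem P2.nat_right {a b : ℤ[X]} (h : P2 a b) (n : ℕ) : P2 a ((n : ℤ[X]) * b) := by
  intro i j hij
  have h1 := h i j hij
  have e : ∀ k, ((n : ℤ[X]) * b).coeff k = n * b.coeff k := by
    intro k
    have : (n : ℤ[X]) = C (n : ℤ) := by simp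
    rw [this, coeff_C_mul]
  rw [e, e]
  have h2 : (0 : ℤ) ≤ n := by positivity
  nlinarith [mul_le_mul_of_nonneg_left h1 h2]

theorem P2.nat_left {a b : ℤ[X]} (h : P2 a b) (n : ℕ) : P2 ((n : ℤ[X]) * a) b := by
  intro i j hij
  have h1 := h i j hij
  have e : ∀ k, ((n : ℤ[X]) * a).coeff k = n * a.coeff k := by
    intro k
    have : (n : ℤ[X]) = C (n : ℤ) := by simp
    rw [this, coeff_C_mul]
  rw [e, e]
  have h2 : (0 : ℤ) ≤ n := by positivity
  nlinarith [mul_le_mul_of_nonneg_left h1 h2]

theorem P2.shift {a b : ℤ[X]} (h : P2 a b) : P2 (X * a) (X * b) := by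
  intro i j hij
  rcases i with _ | i
  · simp
  · rcases j with _ | j
    · omega
    · simp only [coeff_X_mul]
      exact h i j (by omega)

theorem PF.nonneg {c : ℤ[X]} (h : PF c) (i k : ℕ) : 0 ≤ c.coeff i * c.coeff k := by
  have := h (i + 1) i (k + (i + 1)) (by omega)
  rw [coeff_X_pow_mul', coeff_X_pow_mul] at this
  simpa using this

/-- truncated shift of the coefficients -/
def T (c : ℤ[X]) (n i : ℕ) : ℤ := if i ≤ n then c.coeff (n - i) else 0

theorem coeff_mul_T (a c : ℤ[X]) (n N : ℕ) (h : n ≤ N) :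
    (a * c).coeff n = ∑ i ∈ range (N + 1), a.coeff i * T c n i := by
  rw [coeff_mul, Finset.Nat.sum_antidiagonal_eq_sum_range_succ (fun i j => a.coeff i * c.coeff j) n]
  have hs : range (n + 1) ⊆ range (N + 1) := by
    intro i hi
    rw [mem_range] at *
    omega
  rw [← Finset.sum_subset hs]
  · apply Finset.sum_congr rfl
    intro i hi
    rw [mem_range] at hi
    simp [T, Nat.lt_succ_iff.1 hi]
  · intro i _ hi
    rw [mem_range] at hi
    have : ¬ i ≤ n := by omega
    simp [T, this]

theorem T_ineq {c : ℤ[X]} (hc : PF c) {m n i j : ℕ} (hmn : m ≤ n) (hij : i ≤ j) :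
    T c n i * T c m j ≤ T c m i * T c n j := by
  by_cases h : j ≤ m
  · have h1 : i ≤ n := by omega
    have h2 : i ≤ m := by omega
    have h3 : j ≤ n := by omega
    simp only [T, h, h1, h2, h3, if_true]
    have := hc (j - i) (m - i) (n - i) (by omega)
    rw [coeff_X_pow_mul', coeff_X_pow_mul', if_pos (by omega), if_pos (by omega)] at this
    have e1 : m - i - (j - i) = m - j := by omega
    have e2 : n - i - (j - i) = n - j := by omega
    rwa [e1, e2] at this
  · have e : T c m j = 0 := by simp [T, h]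
    rw [e, mul_zero]
    unfold T
    split_ifs
    · exact hc.nonneg _ _
    · simp
    · simp
    · simp

theorem P2.conv {a b c : ℤ[X]} (h : P2 a b) (hc : PF c) : P2 (a * c) (b * c) := by
  intro m n hmn
  rw [coeff_mul_T a c n n le_rfl, coeff_mul_T b c m n hmn, coeff_mul_T a c m n hmn,
    coeff_mul_T b c n n le_rfl, Finset.sum_mul_sum, Finset.sum_mul_sum]
  set S := range (n + 1)
  set E : ℕ → ℕ → ℤ := fun i j => a.coeff i * T c m i * (b.coeff j * T c n j) -
    a.coeff i * T c n i * (b.coeff j * T c m j) with hE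
  have h0 : 0 ≤ ∑ i ∈ S, ∑ j ∈ S, (E i j + E j i) := by
    apply Finset.sum_nonneg
    intro i _
    apply Finset.sum_nonneg
    intro j _
    have key : ∀ i j : ℕ, i ≤ j → 0 ≤ E i j + E j i := by
      intro i j hij
      have e : E i j + E j i = (a.coeff i * b.coeff j - a.coeff j * b.coeff i) *
          (T c m i * T c n j - T c n i * T c m j) := by
        simp only [hE]; ring
      rw [e]
      apply mul_nonneg
      · have := h i j hij; linarith
      · have := T_ineq hc hmn hij; linarith
    rcases le_total i j with hij | hij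
    · exact key i j hij
    · have := key j i hij; linarith
  have h1 : ∑ i ∈ S, ∑ j ∈ S, (E i j + E j i) = 2 * ∑ i ∈ S, ∑ j ∈ S, E i j := by
    simp only [Finset.sum_add_distrib]
    rw [Finset.sum_comm (f := fun i j => E j i)]
    ring
  have h2 : ∑ i ∈ S, ∑ j ∈ S, E i j =
      ∑ i ∈ S, ∑ j ∈ S, a.coeff i * T c m i * (b.coeff j * T c n j) -
      ∑ i ∈ S, ∑ j ∈ S, a.coeff i * T c n i * (b.coeff j * T c m j) := by
    simp only [hE, Finset.sum_sub_distrib]
  rw [h1, h2] at h0
  linarith

theorem PF.mul {a c : ℤ[X]} (ha : PF a) (hc : PF c) : PF (a * c) := by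
  intro δ
  have := (ha δ).conv hc
  rwa [mul_assoc] at this

theorem PF.one : PF (1 : ℤ[X]) := by
  intro δ i j hij
  rw [coeff_X_pow_mul', coeff_X_pow_mul']
  simp only [coeff_one]
  split_ifs <;> omega

/-- positive exactly on `[0, n]` -/
def Pos (n : ℕ) (a : ℤ[X]) : Prop := (∀ k ≤ n, 0 < a.coeff k) ∧ ∀ k, n < k → a.coeff k = 0

theorem Pos.nonneg {n : ℕ} {a : ℤ[X]} (h : Pos n a) (k : ℕ) : 0 ≤ a.coeff k := by
  rcases le_or_gt k n with hk | hk
  · exact (h.1 k hk).le
  · exact (h.2 k hk).ge

theorem P2_left {a b : ℤ[X]} {n : ℕ} (ha : Pos n a) (hb : ∀ k, 0 ≤ b.coeff k)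
    (h : ∀ k, a.coeff (k + 1) * b.coeff k ≤ a.coeff k * b.coeff (k + 1)) : P2 a b := by
  intro i j hij
  induction j, hij using Nat.le_induction with
  | base => exact le_rfl
  | succ j hij ih =>
    by_cases hj : j + 1 ≤ n
    · have hp := ha.1 j (by omega)
      refine le_of_mul_le_mul_left ?_ hp
      have h1 := mul_le_mul_of_nonneg_left ih (ha.nonneg (j + 1))
      have h2 := mul_le_mul_of_nonneg_left (h j) (ha.nonneg i)
      nlinarith
    · rw [ha.2 (j + 1) (by omega), zero_mul]
      exact mul_nonneg (ha.nonneg i) (hb _)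

theorem P2_right {a b : ℤ[X]} {n : ℕ} (hb0 : b.coeff 0 = 0) (hb : ∀ k, 1 ≤ k → k ≤ n → 0 < b.coeff k)
    (hb' : ∀ k, 0 ≤ b.coeff k) (ha : ∀ k, 0 ≤ a.coeff k) (ha0 : ∀ k, n < k → a.coeff k = 0)
    (h : ∀ k, a.coeff (k + 1) * b.coeff k ≤ a.coeff k * b.coeff (k + 1)) : P2 a b := by
  intro i j hij
  induction j, hij using Nat.le_induction with
  | base => exact le_rfl
  | succ j hij ih =>
    by_cases hj : j ≤ n
    · rcases Nat.eq_zero_or_pos j with h0 | h0
      · have hi : i = 0 := by omega
        subst h0; subst hi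
        rw [hb0, mul_zero]
        exact mul_nonneg (ha _) (hb' _)
      · have hp := hb j h0 hj
        refine le_of_mul_le_mul_left ?_ hp
        have h1 := mul_le_mul_of_nonneg_left ih (hb' (j + 1))
        have h2 := mul_le_mul_of_nonneg_left (h j) (hb' i)
        nlinarith
    · rw [ha0 (j + 1) (by omega), zero_mul]
      exact mul_nonneg (ha _) (hb' _)

theorem PF_of_logConcave {a : ℤ[X]} {n : ℕ} (ha : Pos n a)
    (h : ∀ k, a.coeff k * a.coeff (k + 2) ≤ a.coeff (k + 1) ^ 2) : PF a := by
  have h1 : P2 a (X * a) := by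
    apply P2_left ha
    · intro k
      rcases k with _ | k
      · simp
      · rw [coeff_X_mul]; exact ha.nonneg k
    · intro k
      rcases k with _ | k
      · simp only [zero_add, coeff_X_mul]
        simp only [mul_coeff_zero, coeff_X_zero, zero_mul, mul_zero]
        exact mul_nonneg (ha.nonneg _) (ha.nonneg _)
      · simp only [coeff_X_mul]
        have := h k
        nlinarith
  intro δ
  apply P2_left ha
  · intro k
    rw [coeff_X_pow_mul']
    split_ifs
    · exact ha.nonneg _
    · exact le_rfl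
  · intro k
    rcases le_or_gt δ k with hk | hk
    · rw [coeff_X_pow_mul', coeff_X_pow_mul', if_pos hk, if_pos (by omega)]
      have := h1 (k + 1 - δ) (k + 1) (by omega)
      have e : k + 1 - δ = (k - δ) + 1 := by omega
      rw [e, coeff_X_mul, coeff_X_mul] at this
      rw [e]
      linarith
    · rw [coeff_X_pow_mul' _ _ k, if_neg (by omega), mul_zero]
      apply mul_nonneg (ha.nonneg _)
      rw [coeff_X_pow_mul']
      split_ifs
      · exact ha.nonneg _
      · exact le_rfl

theorem Pos.mul {a c : ℤ[X]} {m n : ℕ} (ha : Pos m a) (hc : Pos n c) : Pos (m + n) (a * c) := by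
  constructor
  · intro k hk
    rw [coeff_mul]
    apply Finset.sum_pos'
    · intro q _
      exact mul_nonneg (ha.nonneg _) (hc.nonneg _)
    · refine ⟨(min k m, k - min k m), ?_, ?_⟩
      · rw [HasAntidiagonal.mem_antidiagonal]; simp only; omega
      · exact mul_pos (ha.1 _ (by simp)) (hc.1 _ (by simp only; omega))
  · intro k hk
    rw [coeff_mul]
    apply Finset.sum_eq_zero
    intro q hq
    rw [HasAntidiagonal.mem_antidiagonal] at hq
    rcases le_or_gt q.1 m with h | h
    · rw [hc.2 q.2 (by omega), mul_zero]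
    · rw [ha.2 q.1 h, zero_mul]

end Pool.Agent.Helper47.Alt
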