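import Pool.Agent.Helper47.Alt.Seq

/-! The two-term recursion of a rooted tree and its invariants. -/

namespace Pool.Agent.Helper47.Alt

open Polynomial Finset

/-- the pair of polynomials of a completely processed vertex -/
structure Done (d : ℕ) (F G : ℤ[X]) : Prop where
  Fpos : Pos (d + 1) F
  Gpos : Pos d G
  FG : ∀ k, G.coeff k ≤ F.coeff k
  FXG : ∀ k, (X * G).coeff k ≤ F.coeff k
  gf : P2 G F
  fxg : P2 F (X * G)

namespace Done

variable {d : ℕ} {F G : ℤ[X]}

theorem a1 (h : Done d F G) (k : ℕ) : G.coeff (k + 1) * F.coeff k ≤ G.coeff k * F.coeff (k + 1) :=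
  h.gf k (k + 1) (by omega)

theorem a2 (h : Done d F G) (k : ℕ) :
    F.coeff (k + 2) * G.coeff k ≤ F.coeff (k + 1) * G.coeff (k + 1) := by
  have := h.fxg (k + 1) (k + 2) (by omega)
  rwa [coeff_X_mul, coeff_X_mul] at this

theorem FXG' (h : Done d F G) (k : ℕ) : G.coeff k ≤ F.coeff (k + 1) := by
  have := h.FXG (k + 1)
  rwa [coeff_X_mul] at this

theorem lc (h : Done d F G) (k : ℕ) : F.coeff k * F.coeff (k + 2) ≤ F.coeff (k + 1) ^ 2 := by
  rcases le_or_gt (k + 1) d with hk | hk
  · have hg := h.Gpos.1 (k + 1) hk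
    have b1 := h.a1 k
    have b2 := h.a2 k
    refine le_of_mul_le_mul_left ?_ hg
    have h1 := mul_le_mul_of_nonneg_left b1 (h.Fpos.nonneg (k + 2))
    have h2 := mul_le_mul_of_nonneg_left b2 (h.Fpos.nonneg (k + 1))
    nlinarith
  · rw [h.Fpos.2 (k + 2) (by omega), mul_zero]
    positivity

theorem pf (h : Done d F G) : PF F := PF_of_logConcave h.Fpos h.lc

theorem nonnegFG (h : Done d F G) (k : ℕ) : 0 ≤ (F - G).coeff k := by
  rw [coeff_sub]; have := h.FG k; linarith

theorem nonnegFXG (h : Done d F G) (k : ℕ) : 0 ≤ (F - X * G).coeff k := by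
  rw [coeff_sub]; have := h.FXG k; linarith

theorem p5 (h : Done d F G) : P2 F (X * (F - G)) := by
  apply P2_left h.Fpos
  · intro k
    rcases k with _ | k
    · simp
    · rw [coeff_X_mul]; exact h.nonnegFG k
  · intro k
    rcases k with _ | k
    · simp only [zero_add, coeff_X_mul]
      simp only [mul_coeff_zero, coeff_X_zero, zero_mul, mul_zero]
      exact mul_nonneg (h.Fpos.nonneg _) (h.nonnegFG _)
    · simp only [coeff_X_mul, coeff_sub]
      rcases le_or_gt (k + 1) d with hk | hk
      · have hg := h.Gpos.1 (k + 1) hk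
        refine le_of_mul_le_mul_left ?_ hg
        have b1 := h.a1 k
        have b2 := h.a2 k
        have c1 := mul_le_mul_of_nonneg_left b1 (h.Fpos.nonneg (k + 2))
        have c2 := mul_le_mul_of_nonneg_right b2 (sub_nonneg.2 (h.FG (k + 1)))
        nlinarith
      · rw [h.Fpos.2 (k + 1 + 1) (by omega), zero_mul]
        apply mul_nonneg (h.Fpos.nonneg _)
        have := h.FG (k + 1)
        linarith

theorem p4 (h : Done d F G) : P2 (F - X * G) (X * F) := by
  apply P2_right (n := d + 1)
  · simp
  · intro k hk hk'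
    obtain ⟨k, rfl⟩ : ∃ j, k = j + 1 := ⟨k - 1, by omega⟩
    rw [coeff_X_mul]
    exact h.Fpos.1 k (by omega)
  · intro k
    rcases k with _ | k
    · simp
    · rw [coeff_X_mul]; exact h.Fpos.nonneg k
  · exact h.nonnegFXG
  · intro k hk
    obtain ⟨k, rfl⟩ : ∃ j, k = j + 1 := ⟨k - 1, by omega⟩
    rw [coeff_sub, coeff_X_mul, h.Fpos.2 _ hk, h.Gpos.2 k (by omega), sub_zero]
  · intro k
    rcases k with _ | k
    · simp only [zero_add, coeff_X_mul, coeff_sub]
      simp only [mul_coeff_zero, coeff_X_zero, zero_mul, mul_zero, sub_zero]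
      exact mul_nonneg (h.Fpos.nonneg _) (h.Fpos.nonneg _)
    · simp only [coeff_X_mul, coeff_sub]
      rcases le_or_gt k d with hk | hk
      · have hg := h.Gpos.1 k hk
        refine le_of_mul_le_mul_left ?_ hg
        have b1 := h.a1 k
        have b2 := h.a2 k
        have c1 := mul_le_mul_of_nonneg_right b2 (h.Fpos.nonneg k)
        have c2 := mul_le_mul_of_nonneg_right b1 (sub_nonneg.2 (h.FXG' k))
        nlinarith
      · rw [h.Fpos.2 (k + 1 + 1) (by omega), h.Gpos.2 (k + 1) (by omega), h.Gpos.2 k (by omega),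
          h.Fpos.2 (k + 1) (by omega)]
        simp

end Done

/-- the invariant of a partially processed vertex with polynomial `β (1 + X) g + u` -/
structure St (β d : ℕ) (u g : ℤ[X]) : Prop where
  gpos : Pos d g
  upos : ∀ k, 0 ≤ u.coeff k
  uzero : ∀ k, d + 1 < k → u.coeff k = 0
  pfg : PF g
  gu : P2 g u
  ugx : P2 u (X * g)
  big : 1 ≤ β ∨ ((∀ k, g.coeff k ≤ u.coeff k) ∧ ∀ k, (X * g).coeff k ≤ u.coeff k)

namespace St

variable {β d : ℕ} {u g : ℤ[X]}

theorem coeff_f (β : ℕ) (u g : ℤ[X]) (k : ℕ) : ((β : ℤ[X]) * ((1 + X) * g) + u).coeff k =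
    β * (g.coeff k + (X * g).coeff k) + u.coeff k := by
  have e : (β : ℤ[X]) = C (β : ℤ) := by simp
  rw [coeff_add, e, coeff_C_mul, add_mul, one_mul, coeff_add]

theorem xnonneg (h : St β d u g) (k : ℕ) : 0 ≤ (X * g).coeff k := by
  rcases k with _ | k
  · simp
  · rw [coeff_X_mul]; exact h.gpos.nonneg k

theorem xzero (h : St β d u g) (k : ℕ) (hk : d + 1 < k) : (X * g).coeff k = 0 := by
  rcases k with _ | k
  · simp
  · rw [coeff_X_mul]; exact h.gpos.2 k (by omega)

theorem done (h : St β d u g) : Done d ((β : ℤ[X]) * ((1 + X) * g) + u) g := by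
  have hFG : ∀ k, g.coeff k ≤ ((β : ℤ[X]) * ((1 + X) * g) + u).coeff k := by
    intro k
    rw [coeff_f]
    have h1 := h.gpos.nonneg k
    have h2 := h.xnonneg k
    have h3 := h.upos k
    rcases h.big with hb | hb
    · have hb' : (1 : ℤ) ≤ β := by exact_mod_cast hb
      nlinarith
    · have h4 := hb.1 k
      have hb' : (0 : ℤ) ≤ β := by positivity
      nlinarith [mul_nonneg hb' (add_nonneg h1 h2)]
  have hFXG : ∀ k, (X * g).coeff k ≤ ((β : ℤ[X]) * ((1 + X) * g) + u).coeff k := by
    intro k
    rw [coeff_f]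
    have h1 := h.gpos.nonneg k
    have h2 := h.xnonneg k
    have h3 := h.upos k
    rcases h.big with hb | hb
    · have hb' : (1 : ℤ) ≤ β := by exact_mod_cast hb
      nlinarith
    · have h4 := hb.2 k
      have hb' : (0 : ℤ) ≤ β := by positivity
      nlinarith [mul_nonneg hb' (add_nonneg h1 h2)]
  have hx1 : P2 g (X * g) := by simpa using h.pfg 1
  constructor
  · constructor
    · intro k hk
      rcases le_or_gt k d with h' | h'
      · exact lt_of_lt_of_le (h.gpos.1 k h') (hFG k)
      · have e : k = d + 1 := by omega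
        subst e
        refine lt_of_lt_of_le ?_ (hFXG (d + 1))
        rw [coeff_X_mul]
        exact h.gpos.1 d le_rfl
    · intro k hk
      rw [coeff_f, h.gpos.2 k (by omega), h.xzero k hk, h.uzero k hk]
      simp
  · exact h.gpos
  · exact hFG
  · exact hFXG
  · apply P2.add_right _ h.gu
    apply P2.nat_right
    rw [add_mul, one_mul]
    exact (P2.refl g).add_right hx1
  · apply P2.add_left _ h.ugx
    apply P2.nat_left
    rw [add_mul, one_mul]
    exact hx1.add_left (P2.refl _)

theorem leaf {β : ℕ} (h : 1 ≤ β) : St β 0 0 1 := by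
  constructor
  · constructor
    · intro k hk
      have : k = 0 := by omega
      subst this
      simp
    · intro k hk
      rw [coeff_one, if_neg (by omega)]
  · intro k; simp
  · intro k _; simp
  · exact PF.one
  · intro i j _; simp
  · intro i j _; simp
  · exact Or.inl h

/-- adding a child of the same sign -/
theorem same {e : ℕ} {F G : ℤ[X]} (h : St (β + 1) d u g) (hc : Done e F G) :
    St β (d + (e + 1)) (u * F + g * ((1 + X) * F - X * G)) (g * F) := by
  have hmul : ∀ {a b : ℤ[X]}, (∀ k, 0 ≤ a.coeff k) → (∀ k, 0 ≤ b.coeff k) →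
      ∀ k, 0 ≤ (a * b).coeff k := by
    intro a b ha hb k
    rw [coeff_mul]
    exact Finset.sum_nonneg fun q _ => mul_nonneg (ha _) (hb _)
  have hX : ∀ {a : ℤ[X]}, (∀ k, 0 ≤ a.coeff k) → ∀ k, 0 ≤ (X * a).coeff k := by
    intro a ha k
    rcases k with _ | k
    · simp
    · rw [coeff_X_mul]; exact ha k
  have hu := hmul h.upos hc.Fpos.nonneg
  constructor
  · exact h.gpos.mul hc.Fpos
  · intro k
    have e1 : g * ((1 + X) * F - X * G) = g * F + g * (X * (F - G)) := by ring
    rw [e1, coeff_add, coeff_add]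
    have h2 := hmul h.gpos.nonneg hc.Fpos.nonneg k
    have h3 := hmul h.gpos.nonneg (hX hc.nonnegFG) k
    have := hu k
    linarith
  · intro k hk
    have z : ∀ (m n : ℕ) (a b : ℤ[X]), (∀ k, m < k → a.coeff k = 0) →
        (∀ k, n < k → b.coeff k = 0) → m + n < k → (a * b).coeff k = 0 := by
      intro m n a b ha hb hk
      rw [coeff_mul]
      apply Finset.sum_eq_zero
      intro q hq
      rw [HasAntidiagonal.mem_antidiagonal] at hq
      rcases le_or_gt q.1 m with h | h
      · rw [hb q.2 (by omega), mul_zero]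
      · rw [ha q.1 h, zero_mul]
    rw [coeff_add, z (d + 1) (e + 1) u F h.uzero hc.Fpos.2 (by omega),
      z d (e + 2) g _ h.gpos.2 ?_ (by omega), add_zero]
    intro j hj
    obtain ⟨j, rfl⟩ : ∃ i, j = i + 1 := ⟨j - 1, by omega⟩
    rw [add_mul, one_mul, coeff_sub, coeff_add, coeff_X_mul, coeff_X_mul,
      hc.Fpos.2 _ (by omega), hc.Fpos.2 _ (by omega), hc.Gpos.2 _ (by omega)]
    simp
  · exact h.pfg.mul hc.pf
  · apply P2.add_right (h.gu.conv hc.pf)
    have h1 : P2 F ((1 + X) * F - X * G) := by
      have e1 : (1 + X) * F - X * G = F + X * (F - G) := by ring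
      rw [e1]
      exact (P2.refl F).add_right hc.p5
    have := h1.conv h.pfg
    rwa [mul_comm F, mul_comm _ g] at this
  · have e0 : X * (g * F) = (X * g) * F := by ring
    have e2 : X * (g * F) = (X * F) * g := by ring
    apply P2.add_left
    · rw [e0]; exact h.ugx.conv hc.pf
    · have h1 : P2 ((1 + X) * F - X * G) (X * F) := by
        have e1 : (1 + X) * F - X * G = (F - X * G) + X * F := by ring
        rw [e1]
        exact hc.p4.add_left (P2.refl _)
      have := h1.conv h.pfg
      rw [e2, mul_comm g]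
      exact this
  · right
    constructor
    · intro k
      have e1 : u * F + g * ((1 + X) * F - X * G) = g * F + (u * F + g * (X * (F - G))) := by ring
      rw [e1, coeff_add (g * F), coeff_add (u * F)]
      have h3 := hmul h.gpos.nonneg (hX hc.nonnegFG) k
      have := hu k
      linarith
    · intro k
      have e1 : u * F + g * ((1 + X) * F - X * G) =
          X * (g * F) + (u * F + g * (F - X * G)) := by ring
      rw [e1, coeff_add (X * (g * F)), coeff_add (u * F)]
      have h3 := hmul h.gpos.nonneg hc.nonnegFXG k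
      have := hu k
      linarith

/-- adding a child of the opposite sign -/
theorem opp {e : ℕ} {F G : ℤ[X]} (h : St β d u g) (hc : Done e F G) :
    St β (d + (e + 1)) (u * F + X * (g * G)) (g * F) := by
  have hmul : ∀ {a b : ℤ[X]}, (∀ k, 0 ≤ a.coeff k) → (∀ k, 0 ≤ b.coeff k) →
      ∀ k, 0 ≤ (a * b).coeff k := by
    intro a b ha hb k
    rw [coeff_mul]
    exact Finset.sum_nonneg fun q _ => mul_nonneg (ha _) (hb _)
  have hX : ∀ {a : ℤ[X]}, (∀ k, 0 ≤ a.coeff k) → ∀ k, 0 ≤ (X * a).coeff k := by
    intro a ha k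
    rcases k with _ | k
    · simp
    · rw [coeff_X_mul]; exact ha k
  have hu := hmul h.upos hc.Fpos.nonneg
  have hg := hX (hmul h.gpos.nonneg hc.Gpos.nonneg)
  constructor
  · exact h.gpos.mul hc.Fpos
  · intro k
    rw [coeff_add]
    have := hu k
    have := hg k
    linarith
  · intro k hk
    have z : ∀ (k m n : ℕ) (a b : ℤ[X]), (∀ k, m < k → a.coeff k = 0) →
        (∀ k, n < k → b.coeff k = 0) → m + n < k → (a * b).coeff k = 0 := by
      intro k m n a b ha hb hk
      rw [coeff_mul]
      apply Finset.sum_eq_zero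
      intro q hq
      rw [HasAntidiagonal.mem_antidiagonal] at hq
      rcases le_or_gt q.1 m with h | h
      · rw [hb q.2 (by omega), mul_zero]
      · rw [ha q.1 h, zero_mul]
    obtain ⟨k, rfl⟩ : ∃ i, k = i + 1 := ⟨k - 1, by omega⟩
    rw [coeff_add, coeff_X_mul, z (k + 1) (d + 1) (e + 1) u F h.uzero hc.Fpos.2 (by omega),
      z k d e g G h.gpos.2 hc.Gpos.2 (by omega), add_zero]
  · exact h.pfg.mul hc.pf
  · apply P2.add_right (h.gu.conv hc.pf)
    have := hc.fxg.conv h.pfg
    rw [mul_comm g F]
    have e1 : X * (g * G) = X * G * g := by ring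
    rw [e1]
    exact this
  · have e0 : X * (g * F) = (X * g) * F := by ring
    apply P2.add_left
    · rw [e0]; exact h.ugx.conv hc.pf
    · have := (hc.gf.conv h.pfg).shift
      rw [mul_comm g F, mul_comm g G]
      exact this
  · rcases h.big with hb | hb
    · exact Or.inl hb
    · right
      constructor
      · intro k
        have e1 : u * F + X * (g * G) = g * F + ((u - g) * F + X * (g * G)) := by ring
        rw [e1, coeff_add (g * F), coeff_add]
        have h3 := hmul (a := u - g) (fun k => by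
          rw [coeff_sub]; have := hb.1 k; linarith) hc.Fpos.nonneg k
        have := hg k
        linarith
      · intro k
        have e1 : u * F + X * (g * G) = X * (g * F) + ((u - X * g) * F + X * (g * G)) := by ring
        rw [e1, coeff_add (X * (g * F)), coeff_add]
        have h3 := hmul (a := u - X * g) (fun k => by
          rw [coeff_sub]; have := hb.2 k; linarith) hc.Fpos.nonneg k
        have := hg k
        linarith

end St

end Pool.Agent.Helper47.Alt
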